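import Pool.Agent.W2helper31.GP.Stm5

set_option autoImplicit false

/-! Piece FC0 of project GP5. -/

open MeasureTheory Real

namespace Pool.Agent.W2helper81.GP5

theorem fc_int (a u v : ℝ) :
    IntervalIntegrable (fun θ => Real.log |2 * Real.cos (θ - a)|) volume u v := by
  have h : MeromorphicOn (fun θ : ℝ => 2 * Real.cos (θ - a)) (Set.uIcc u v) := by
    apply AnalyticOnNhd.meromorphicOn
    intro x _
    fun_prop
  have := MeromorphicOn.intervalIntegrable_log_norm h
  simpa [Real.norm_eq_abs] using this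

theorem fc_sin : ∫ θ in (0:ℝ)..Real.pi, Real.log |2 * Real.sin θ| = 0 := by
  have h1 : ∫ θ in (0:ℝ)..Real.pi, Real.log |2 * Real.sin θ|
      = ∫ θ in (0:ℝ)..Real.pi, (Real.log 2 + Real.log (Real.sin θ)) := by
    rw [intervalIntegral.integral_of_le Real.pi_pos.le, intervalIntegral.integral_of_le Real.pi_pos.le,
      ← integral_Ioc_eq_integral_Ioo.symm, integral_Ioc_eq_integral_Ioo]
    apply setIntegral_congr_fun measurableSet_Ioo
    intro θ hθ
    have hs : 0 < Real.sin θ := Real.sin_pos_of_pos_of_lt_pi hθ.1 hθ.2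
    simp only
    rw [Real.log_abs, Real.log_mul (by norm_num) hs.ne']
  have hls : IntervalIntegrable (fun θ : ℝ => Real.log (Real.sin θ)) volume 0 Real.pi :=
    intervalIntegrable_log_sin
  rw [h1, intervalIntegral.integral_add (by simp) hls]
  rw [integral_log_sin_zero_pi]
  simp
  ring

theorem p_fc0 : Pool.Agent.W2helper31.GP.P_FC0 := by
  intro a
  refine ⟨fc_int a _ _, ?_⟩
  have hp : Function.Periodic (fun θ : ℝ => Real.log |2 * Real.sin θ|) Real.pi := by
    intro θ
    simp only
    rw [Real.sin_add_pi]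
    congr 1
    rw [mul_neg, abs_neg]
  have h1 : ∀ θ : ℝ, Real.log |2 * Real.cos (θ - a)| = (fun θ : ℝ => Real.log |2 * Real.sin θ|) (θ - (a - Real.pi / 2)) := by
    intro θ
    simp only
    rw [show θ - (a - Real.pi / 2) = (θ - a) + Real.pi / 2 by ring, Real.sin_add_pi_div_two]
  simp_rw [h1]
  rw [intervalIntegral.integral_comp_sub_right (fun θ : ℝ => Real.log |2 * Real.sin θ|)]
  have hi : ∀ u v : ℝ, IntervalIntegrable (fun θ : ℝ => Real.log |2 * Real.sin θ|) volume u v := by
    intro u v
    have := fc_int (Real.pi / 2) u v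
    simpa [Real.cos_sub_pi_div_two] using this
  set c := a - Real.pi / 2 with hc
  rw [← intervalIntegral.integral_add_adjacent_intervals (hi (-Real.pi - c) (-c)) (hi (-c) (Real.pi - c))]
  have e1 : ∫ θ in (-Real.pi - c)..(-c), Real.log |2 * Real.sin θ| = 0 := by
    have := hp.intervalIntegral_add_eq (-Real.pi - c) 0
    simp only [zero_add] at this
    rw [show -Real.pi - c + Real.pi = -c by ring] at this
    rw [this, fc_sin]
  have e2 : ∫ θ in (-c)..(Real.pi - c), Real.log |2 * Real.sin θ| = 0 := by
    have := hp.intervalIntegral_add_eq (-c) 0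
    simp only [zero_add] at this
    rw [show -c + Real.pi = Real.pi - c by ring] at this
    rw [this, fc_sin]
  rw [e1, e2, add_zero]

end Pool.Agent.W2helper81.GP5
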