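import Pool.Agent.W2helper31.GP.Stm5

set_option autoImplicit false

/-! Piece GAM3 of project GP5. -/

open Filter Topology

namespace Pool.Agent.W2helper81.GP5

/-- the factor -/
noncomputable def qq (p : ℝ) (j : ℕ) : ℝ :=
  (1 + p / 2 + j) ^ 3 * (1 + 3 * p / 2 + j) / ((1 + p + j) ^ 3 * (1 + j))

theorem qq_nonneg (p : ℝ) (hp : 0 < p) (j : ℕ) : 0 ≤ qq p j := by
  unfold qq; positivity

theorem qq_eq (p : ℝ) (hp : 0 < p) (j : ℕ) :
    qq p j = 1 + p ^ 2 * (p / 4 * ((1 + j : ℝ) + 3 * p / 4) / ((1 + j) * ((1 + j) + p) ^ 3)) := by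
  unfold qq
  have h1 : (1 + (j:ℝ)) ≠ 0 := by positivity
  have h2 : (1 + p + (j:ℝ)) ≠ 0 := by positivity
  have h3 : ((1 + (j:ℝ)) + p) ≠ 0 := by positivity
  field_simp
  ring

theorem base (p : ℝ) (hp : 0 < p) (hp1 : p ≤ 1) :
    p / 4 * (1 + 3 * p / 4) / (1 + p) ^ 3 ≤ 91 / 1000 - 188 / 1000 / 6 := by
  rw [div_le_iff₀ (by positivity)]
  nlinarith [sq_nonneg (p - 7 / 10), mul_nonneg hp.le (sq_nonneg (p - 7 / 10)), mul_pos hp hp]

theorem step (p x : ℝ) (hp : 0 < p) (hp1 : p ≤ 1) (hx : 2 ≤ x) :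
    p / 4 * (x + 3 * p / 4) / (x * (x + p) ^ 3) ≤ 11 / 32 / (x * (x + 1) * (x + 2)) := by
  rw [div_le_div_iff₀ (by positivity) (by positivity)]
  obtain ⟨y, hy, rfl⟩ : ∃ y : ℝ, 0 ≤ y ∧ x = 2 + y := ⟨x - 2, by linarith, by ring⟩
  have c0 : 0 ≤ 88 - 60 * p - 6 * p ^ 2 + 11 * p ^ 3 := by nlinarith [pow_pos hp 3]
  have c1 : 0 ≤ 132 - 76 * p - 9 * p ^ 2 := by nlinarith
  have c2 : 0 ≤ 66 - 39 * p - 6 * p ^ 2 := by nlinarith
  have c3 : 0 ≤ 11 - 8 * p := by nlinarith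
  have key : 0 ≤ (2 + y) * ((88 - 60 * p - 6 * p ^ 2 + 11 * p ^ 3) + (132 - 76 * p - 9 * p ^ 2) * y
    + (66 - 39 * p - 6 * p ^ 2) * y ^ 2 + (11 - 8 * p) * y ^ 3) := by positivity
  nlinarith [key]

theorem prod_le (p : ℝ) (hp : 0 < p) (hp1 : p ≤ 1) (n : ℕ) :
    ∏ j ∈ Finset.range (n + 1), qq p j ≤
      1 + p ^ 2 * (91 / 1000 - 188 / 1000 / (((n : ℝ) + 2) * (n + 3))) := by
  induction n with
  | zero =>
    have := base p hp hp1
    simp only [zero_add, Finset.prod_range_one]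
    rw [qq_eq p hp 0]
    have e : p / 4 * ((1 + ((0:ℕ):ℝ)) + 3 * p / 4) / ((1 + ((0:ℕ):ℝ)) * ((1 + ((0:ℕ):ℝ)) + p) ^ 3)
      = p / 4 * (1 + 3 * p / 4) / (1 + p) ^ 3 := by norm_num
    rw [e]
    have e2 : (91 / 1000 - 188 / 1000 / ((((0:ℕ) : ℝ) + 2) * (((0:ℕ):ℝ) + 3)) : ℝ) = 91 / 1000 - 188 / 1000 / 6 := by
      norm_num
    rw [e2]
    have := mul_le_mul_of_nonneg_left this (sq_nonneg p)
    linarith
  | succ n ih =>
    rw [Finset.prod_range_succ]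
    have hst := step p ((n:ℝ) + 2) hp hp1 (by have : (0:ℝ) ≤ n := Nat.cast_nonneg n; linarith)
    have hq : qq p (n + 1) ≤ 1 + p ^ 2 * (11 / 32 / (((n:ℝ) + 2) * (n + 3) * (n + 4))) := by
      rw [qq_eq p hp (n + 1)]
      have e : (1 + ((n + 1 : ℕ) : ℝ)) = (n:ℝ) + 2 := by push_cast; ring
      rw [e]
      have e3 : ((n:ℝ) + 2) * (n + 3) * (n + 4) = ((n:ℝ) + 2) * ((n:ℝ) + 2 + 1) * ((n:ℝ) + 2 + 2) := by ring
      rw [e3]
      have := mul_le_mul_of_nonneg_left hst (sq_nonneg p)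
      linarith
    set T : ℝ := 1 / (((n:ℝ) + 2) * (n + 3) * (n + 4)) with hT
    have hT0 : 0 ≤ T := by positivity
    have hq' : qq p (n + 1) ≤ 1 + p ^ 2 * (11 / 32 * T) := by
      rw [hT]; rw [mul_one_div]; exact hq
    set V : ℝ := 188 / 1000 / (((n : ℝ) + 2) * (n + 3)) with hV
    have hV0 : 0 ≤ V := by positivity
    have hV2 : 188 / 1000 / ((((n + 1 : ℕ) : ℝ) + 2) * (((n + 1 : ℕ) : ℝ) + 3)) = V - 376 / 1000 * T := by
      rw [hV, hT]; push_cast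
      have h2 : (n:ℝ) + 2 ≠ 0 := by positivity
      have h3 : (n:ℝ) + 3 ≠ 0 := by positivity
      have h4 : (n:ℝ) + 4 ≠ 0 := by positivity
      rw [show (n:ℝ) + 1 + 2 = n + 3 by ring, show (n:ℝ) + 1 + 3 = n + 4 by ring]
      field_simp
      ring
    rw [hV2]
    have hP0 : 0 ≤ ∏ j ∈ Finset.range (n + 1), qq p j := Finset.prod_nonneg fun j _ => qq_nonneg p hp j
    have hp2 : p ^ 2 ≤ 1 := by nlinarith
    have hp20 : 0 ≤ p ^ 2 := sq_nonneg p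
    calc (∏ j ∈ Finset.range (n + 1), qq p j) * qq p (n + 1)
        ≤ (∏ j ∈ Finset.range (n + 1), qq p j) * (1 + p ^ 2 * (11 / 32 * T)) :=
          mul_le_mul_of_nonneg_left hq' hP0
      _ = (∏ j ∈ Finset.range (n + 1), qq p j) + (∏ j ∈ Finset.range (n + 1), qq p j) * (p ^ 2 * (11 / 32 * T)) := by ring
      _ ≤ (1 + p ^ 2 * (91 / 1000 - V)) + (1091 / 1000) * (p ^ 2 * (11 / 32 * T)) := by
          apply add_le_add ih
          apply mul_le_mul_of_nonneg_right _ (by positivity)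
          refine ih.trans ?_
          nlinarith [mul_nonneg hp20 hV0]
      _ ≤ 1 + p ^ 2 * (91 / 1000 - (V - 376 / 1000 * T)) := by
          nlinarith [mul_nonneg hp20 hT0]

theorem seq_eq (p : ℝ) (hp : 0 < p) (n : ℕ) (hn : 0 < n) :
    Real.GammaSeq (1 + p) n ^ 3 * Real.GammaSeq 1 n
      = (Real.GammaSeq (1 + p / 2) n ^ 3 * Real.GammaSeq (1 + 3 * p / 2) n) *
        ∏ j ∈ Finset.range (n + 1), qq p j := by
  have hn' : (0:ℝ) < n := by exact_mod_cast hn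
  unfold Real.GammaSeq qq
  rw [Finset.prod_div_distrib, Finset.prod_mul_distrib, Finset.prod_mul_distrib, Finset.prod_pow,
    Finset.prod_pow]
  set P1 := ∏ j ∈ Finset.range (n + 1), (1 + p + (j:ℝ))
  set P2 := ∏ j ∈ Finset.range (n + 1), (1 + p / 2 + (j:ℝ))
  set P3 := ∏ j ∈ Finset.range (n + 1), (1 + 3 * p / 2 + (j:ℝ))
  set P0 := ∏ j ∈ Finset.range (n + 1), (1 + (j:ℝ))
  have h1 : P1 ≠ 0 := (Finset.prod_pos fun j _ => by positivity).ne'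
  have h2 : P2 ≠ 0 := (Finset.prod_pos fun j _ => by positivity).ne'
  have h3 : P3 ≠ 0 := (Finset.prod_pos fun j _ => by positivity).ne'
  have h0 : P0 ≠ 0 := (Finset.prod_pos fun j _ => by positivity).ne'
  have hr : ((n:ℝ) ^ (1 + p)) ^ 3 * (n:ℝ) ^ (1:ℝ) = ((n:ℝ) ^ (1 + p / 2)) ^ 3 * (n:ℝ) ^ (1 + 3 * p / 2) := by
    rw [← Real.rpow_natCast ((n:ℝ) ^ (1 + p)), ← Real.rpow_natCast ((n:ℝ) ^ (1 + p / 2)),
      ← Real.rpow_mul hn'.le, ← Real.rpow_mul hn'.le, ← Real.rpow_add hn', ← Real.rpow_add hn']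
    congr 1
    push_cast
    ring
  set F := ((n.factorial : ℕ) : ℝ)
  set X1 := (n:ℝ) ^ (1 + p)
  set X0 := (n:ℝ) ^ (1:ℝ)
  set X2 := (n:ℝ) ^ (1 + p / 2)
  set X3 := (n:ℝ) ^ (1 + 3 * p / 2)
  calc (X1 * F / P1) ^ 3 * (X0 * F / P0) = (X1 ^ 3 * X0) * F ^ 4 / (P1 ^ 3 * P0) := by
        field_simp
    _ = (X2 ^ 3 * X3) * F ^ 4 / (P1 ^ 3 * P0) := by rw [hr]
    _ = _ := by field_simp

theorem p_gam3 : Pool.Agent.W2helper31.GP.P_GAM3 := by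
  intro p hp hp1
  have hA : Tendsto (fun n => Real.GammaSeq (1 + p) n ^ 3 * Real.GammaSeq 1 n) atTop
      (𝓝 (Real.Gamma (1 + p) ^ 3 * Real.Gamma 1)) :=
    ((Real.GammaSeq_tendsto_Gamma _).pow 3).mul (Real.GammaSeq_tendsto_Gamma _)
  have hB : Tendsto (fun n => (1 + 91 / 1000 * p ^ 2) *
      (Real.GammaSeq (1 + p / 2) n ^ 3 * Real.GammaSeq (1 + 3 * p / 2) n)) atTop
      (𝓝 ((1 + 91 / 1000 * p ^ 2) * (Real.Gamma (1 + p / 2) ^ 3 * Real.Gamma (1 + 3 * p / 2)))) :=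
    (((Real.GammaSeq_tendsto_Gamma _).pow 3).mul (Real.GammaSeq_tendsto_Gamma _)).const_mul _
  rw [Real.Gamma_one, mul_one] at hA
  refine le_of_tendsto_of_tendsto hA hB ?_
  filter_upwards [eventually_gt_atTop 0] with n hn
  rw [seq_eq p hp n hn, mul_comm]
  apply mul_le_mul_of_nonneg_right
  · refine (prod_le p hp hp1 n).trans ?_
    have : 0 ≤ 188 / 1000 / (((n : ℝ) + 2) * (n + 3)) := by positivity
    nlinarith [mul_nonneg (sq_nonneg p) this]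
  · unfold Real.GammaSeq
    have h2 : 0 < ∏ j ∈ Finset.range (n + 1), (1 + p / 2 + (j:ℝ)) := Finset.prod_pos fun j _ => by positivity
    have h3 : 0 < ∏ j ∈ Finset.range (n + 1), (1 + 3 * p / 2 + (j:ℝ)) := Finset.prod_pos fun j _ => by positivity
    positivity

end Pool.Agent.W2helper81.GP5
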